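import Mathlib
import Pool.Agent.LibFE4.Defs

/-!
# Flow polynomials of graphs without small cuts: definitions

A finite multigraph is given by `s t : E → V`.  `bd s t S` is the number of edges with exactly one
end in `S`, `comps s t A` the number of components of `(V, A)`, `ZZ s t z` is `z ^ |V|` times the
value at `z` of the flow polynomial.
-/

set_option autoImplicit false

namespace Pool.Agent.LibLC4

open Finset Pool.Agent.H69.Flow Pool.Agent.LibFE4
open scoped Classical

/-- The number of edges whose ends have different colours. -/
noncomputable def bich {V E α : Type} [Fintype E] (s t : E → V) (x : V → α) : ℕ :=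
  (univ.filter fun e => x (s e) ≠ x (t e)).card

/-- The sum over the surjective colourings with `k` colours. -/
noncomputable def sj {V E R : Type} [Fintype V] [Fintype E] [CommSemiring R] (s t : E → V)
    (k : ℕ) (a : R) : R :=
  ∑ x ∈ univ.filter (fun x : V → Fin k => Function.Surjective x), a ^ bich s t x

/-- The number of surjections of a set with `n` elements onto a set with `k` elements. -/
noncomputable def su (n k : ℕ) : ℕ :=
  (univ.filter fun x : Fin n → Fin k => Function.Surjective x).card

/-- The binomial coefficient of a complex number. -/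
noncomputable def bc (z : ℂ) (k : ℕ) : ℂ := ∏ i ∈ range k, ((z - i) / (i + 1))

/-- The bound for its absolute value. -/
noncomputable def ac (y : ℝ) (k : ℕ) : ℝ := ∏ i ∈ range k, ((y + i) / (i + 1))

/-- The value at `1` of the weighted sum for `j` vertices. -/
noncomputable def BB (c : ℕ → ℝ) (j : ℕ) : ℝ := ∑ k ∈ range (j + 1), c k * su j k

/-- The majorant. -/
noncomputable def hh (c : ℕ → ℝ) (n : ℕ) (u : ℝ) : ℝ :=
  c 1 + ∑ j ∈ Icc 2 n, (n.choose j : ℝ) * BB c j * u ^ j

/-- The vertex which replaces `v` in the contraction of the edge `e₀`. -/
noncomputable def mv {V E : Type} (s t : E → V) (e₀ : E) (h : s e₀ ≠ t e₀) (v : V) :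
    {v : V // v ≠ t e₀} :=
  if hv : v = t e₀ then ⟨s e₀, h⟩ else ⟨v, hv⟩

end Pool.Agent.LibLC4
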