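import Mathlib
import Pool.Agent.LibLC4.Defs

/-!
Row F1: the numerical bound for the majorant.
-/

set_option autoImplicit false

namespace Pool.Agent.LibLC4

open Finset
open scoped Classical

theorem ac_nonneg (y : ℝ) (hy : 0 ≤ y) (k : ℕ) : 0 ≤ ac y k :=
  Finset.prod_nonneg fun i _ => by positivity

theorem bc_norm (z : ℂ) (k : ℕ) : ‖bc z k‖ ≤ ac ‖z‖ k := by
  unfold bc ac
  rw [norm_prod]
  refine Finset.prod_le_prod (fun _ _ => norm_nonneg _) fun i _ => ?_
  have h1 : ‖(i : ℂ) + 1‖ = (i : ℝ) + 1 := by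
    have h2 : (i : ℂ) + 1 = ((i + 1 : ℕ) : ℂ) := by push_cast; ring
    rw [h2, Complex.norm_natCast]
    push_cast
    ring
  rw [norm_div, h1]
  refine div_le_div_of_nonneg_right ?_ (by positivity)
  calc ‖z - (i : ℂ)‖ ≤ ‖z‖ + ‖(i : ℂ)‖ := norm_sub_le _ _
    _ = ‖z‖ + i := by rw [Complex.norm_natCast]

theorem bc_one (z : ℂ) : bc z 1 = z := by
  unfold bc
  simp

theorem ac_one (y : ℝ) : ac y 1 = y := by
  unfold ac
  simp

/-- PLAN. `(y + i) / (i + 1) ≤ y + 1`. -/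
theorem ac_le (y : ℝ) (hy : 0 ≤ y) (k : ℕ) : ac y (k + 1) ≤ y * (y + 1) ^ k := by
  unfold ac
  rw [Finset.prod_range_succ']
  have h1 : ∏ i ∈ range k, ((y + ((i + 1 : ℕ) : ℝ)) / (((i + 1 : ℕ) : ℝ) + 1)) ≤
      ∏ _i ∈ range k, (y + 1) := by
    refine Finset.prod_le_prod (fun i _ => by positivity) fun i _ => ?_
    rw [div_le_iff₀ (by positivity)]
    push_cast
    nlinarith [mul_nonneg hy (Nat.cast_nonneg (α := ℝ) i), Nat.cast_nonneg (α := ℝ) i]
  rw [Finset.prod_const, Finset.card_range] at h1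
  have h2 : (y + ((0 : ℕ) : ℝ)) / (((0 : ℕ) : ℝ) + 1) = y := by simp
  rw [h2, mul_comm]
  exact mul_le_mul_of_nonneg_left h1 hy

/-- PLAN. All functions: `k ^ n`. -/
theorem su_le (n k : ℕ) : su n k ≤ k ^ n := by
  unfold su
  refine (Finset.card_filter_le _ _).trans ?_
  rw [Finset.card_univ, Fintype.card_fun, Fintype.card_fin, Fintype.card_fin]

/-- PLAN. `su j 0 = 0` for `1 ≤ j`; `ac y k ≤ y * (y + 1) ^ (j - 1)` and `su j k ≤ j ^ j ≤ exp j * j!`
(`Real.pow_div_factorial_le_exp`) for `1 ≤ k ≤ j`. -/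
theorem BB_le (y : ℝ) (hy : 0 ≤ y) (j : ℕ) (hj : 1 ≤ j) :
    BB (ac y) j ≤ j * (y * (y + 1) ^ (j - 1)) * (Real.exp 1 ^ j * j.factorial) := by
  have h0 : su j 0 = 0 := by
    have h1 := su_le j 0
    rw [zero_pow (by omega)] at h1
    omega
  unfold BB
  rw [Finset.sum_range_succ', h0, Nat.cast_zero, mul_zero, add_zero]
  have h2 : ∀ k ∈ range j, ac y (k + 1) * (su j (k + 1) : ℝ) ≤
      (y * (y + 1) ^ (j - 1)) * (Real.exp 1 ^ j * j.factorial) := by
    intro k hk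
    have hk1 := Finset.mem_range.1 hk
    have h3 : ac y (k + 1) ≤ y * (y + 1) ^ (j - 1) :=
      (ac_le y hy k).trans (mul_le_mul_of_nonneg_left
        (pow_le_pow_right₀ (by linarith) (by omega)) hy)
    have h4 : (su j (k + 1) : ℝ) ≤ (j : ℝ) ^ j := by
      have h5 : su j (k + 1) ≤ j ^ j := (su_le j (k + 1)).trans (Nat.pow_le_pow_left (by omega) j)
      exact_mod_cast h5
    have h6 : (j : ℝ) ^ j ≤ Real.exp 1 ^ j * j.factorial := by
      have h7 := Real.pow_div_factorial_le_exp (j : ℝ) (Nat.cast_nonneg j) j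
      rw [div_le_iff₀ (by positivity)] at h7
      rwa [Real.exp_one_pow]
    exact mul_le_mul h3 (h4.trans h6) (Nat.cast_nonneg _) (by positivity)
  calc ∑ k ∈ range j, ac y (k + 1) * (su j (k + 1) : ℝ)
      ≤ ∑ _k ∈ range j, (y * (y + 1) ^ (j - 1)) * (Real.exp 1 ^ j * j.factorial) :=
        Finset.sum_le_sum h2
    _ = j * (y * (y + 1) ^ (j - 1)) * (Real.exp 1 ^ j * j.factorial) := by
        rw [Finset.sum_const, Finset.card_range, nsmul_eq_mul]
        ring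

/-- PLAN. With `x = exp 1 * n * u * (y + 1) ≤ 1 / 4`: `C(n, j) ≤ n ^ j / j!` (`Nat.choose_le_pow_div`), so the term `j`
is at most `y / (y + 1) * j * x ^ j ≤ y * (1 / 2) ^ j` (as `j ≤ 2 ^ j`), and the sum over `j ≥ 2` of
`(1 / 2) ^ j` is at most `1 / 2`. -/
theorem hh_le (y : ℝ) (hy : 0 ≤ y) (n : ℕ) (u : ℝ) (hu : 0 ≤ u)
    (hx : Real.exp 1 * n * u * (y + 1) ≤ 1 / 4) : hh (ac y) n u ≤ y + y / 2 := by
  have hx0 : 0 ≤ Real.exp 1 * n * u * (y + 1) := by positivity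
  have h1 : ∀ j ∈ Icc 2 n, (n.choose j : ℝ) * BB (ac y) j * u ^ j ≤ y * (1 / 2) ^ j := by
    intro j hj
    have hj2 := (Finset.mem_Icc.1 hj).1
    have h2 : (n.choose j : ℝ) ≤ (n : ℝ) ^ j / (j.factorial : ℝ) := Nat.choose_le_pow_div j n
    have h3 := BB_le y hy j (by omega)
    have h4 : (n.choose j : ℝ) * BB (ac y) j ≤ (n : ℝ) ^ j / (j.factorial : ℝ) *
        (j * (y * (y + 1) ^ (j - 1)) * (Real.exp 1 ^ j * j.factorial)) := by
      refine (mul_le_mul_of_nonneg_left h3 (Nat.cast_nonneg _)).trans ?_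
      exact mul_le_mul_of_nonneg_right h2 (by positivity)
    have h5 : (n : ℝ) ^ j / (j.factorial : ℝ) *
        (j * (y * (y + 1) ^ (j - 1)) * (Real.exp 1 ^ j * j.factorial)) =
        j * y * ((Real.exp 1 * n) ^ j * (y + 1) ^ (j - 1)) := by
      have h6 : (j.factorial : ℝ) ≠ 0 := by positivity
      field_simp
      ring
    have h7 : (y + 1) ^ (j - 1) ≤ (y + 1) ^ j :=
      pow_le_pow_right₀ (by linarith) (by omega)
    have h8 : (j : ℝ) ≤ 2 ^ j := by exact_mod_cast (Nat.lt_two_pow_self (n := j)).le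
    calc (n.choose j : ℝ) * BB (ac y) j * u ^ j
        ≤ j * y * ((Real.exp 1 * n) ^ j * (y + 1) ^ (j - 1)) * u ^ j := by
          rw [h5] at h4
          exact mul_le_mul_of_nonneg_right h4 (by positivity)
      _ ≤ j * y * ((Real.exp 1 * n) ^ j * (y + 1) ^ j) * u ^ j := by gcongr
      _ = j * y * (Real.exp 1 * n * u * (y + 1)) ^ j := by
          rw [mul_pow _ (y + 1), mul_pow _ u]
          ring
      _ ≤ 2 ^ j * y * (1 / 4) ^ j := by gcongr
      _ = y * (1 / 2) ^ j := by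
          have h9 : (2 : ℝ) ^ j * (1 / 4) ^ j = (1 / 2) ^ j := by
            rw [← mul_pow]
            norm_num
          rw [← h9]
          ring
  have h10 : ∀ n : ℕ, 1 ≤ n → ∑ j ∈ Icc 2 n, (1 / 2 : ℝ) ^ j = 1 / 2 - (1 / 2) ^ n := by
    intro n hn
    induction n, hn using Nat.le_induction with
    | base => norm_num
    | succ m hm ih =>
      rw [Finset.sum_Icc_succ_top (by omega), ih]
      ring
  have h11 : ∑ j ∈ Icc 2 n, (1 / 2 : ℝ) ^ j ≤ 1 / 2 := by
    by_cases hn : 1 ≤ n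
    · rw [h10 n hn]
      have h12 : (0 : ℝ) ≤ (1 / 2) ^ n := by positivity
      linarith
    · rw [Finset.Icc_eq_empty (by omega), Finset.sum_empty]
      norm_num
  unfold hh
  rw [ac_one]
  have h13 := Finset.sum_le_sum h1
  rw [← Finset.mul_sum] at h13
  have h14 := mul_le_mul_of_nonneg_left h11 hy
  linarith

end Pool.Agent.LibLC4
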