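import Mathlib
import Pool.Agent.LibLC4.Defs

/-!
Row C2: the number of edges which are not loops, and the case of one vertex.
-/

set_option autoImplicit false

namespace Pool.Agent.LibLC4

open Finset Pool.Agent.H69.Flow Pool.Agent.LibFE4
open scoped Classical

/-- PLAN. `∑ v, bd s t {v}` counts every edge which is not a loop twice. -/
theorem edges_lower {V E : Type} [Fintype V] [Fintype E] (s t : E → V) (l : ℕ)
    (hV : 2 ≤ Fintype.card V)
    (hd : ∀ S : Finset V, S.Nonempty → S ≠ univ → 2 * l ≤ bd s t S) :
    Fintype.card V * l ≤ (univ.filter fun e => s e ≠ t e).card := by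
  have h1 : ∀ v : V, 2 * l ≤ bd s t {v} := by
    intro v
    refine hd {v} (Finset.singleton_nonempty v) fun hu => ?_
    have h2 : (univ : Finset V).card = 1 := by rw [← hu, Finset.card_singleton]
    rw [Finset.card_univ] at h2
    omega
  have h2 : ∑ v : V, bd s t {v} = 2 * (univ.filter fun e => s e ≠ t e).card := by
    have h3 : ∀ v : V, bd s t {v} =
        ∑ e : E, if ¬ (s e ∈ ({v} : Finset V) ↔ t e ∈ ({v} : Finset V)) then 1 else 0 := by
      intro v
      unfold bd
      rw [Finset.card_filter]
    rw [Finset.sum_congr rfl fun v _ => h3 v, Finset.sum_comm, Finset.card_filter, Finset.mul_sum]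
    refine Finset.sum_congr rfl fun e _ => ?_
    rw [← Finset.card_filter]
    by_cases he : s e = t e
    · have h4 : (univ.filter fun v : V => ¬ (s e ∈ ({v} : Finset V) ↔ t e ∈ ({v} : Finset V))) = ∅ := by
        rw [Finset.filter_eq_empty_iff]
        intro v _
        rw [he]
        simp
      rw [h4, if_neg (by simpa using he)]
      simp
    · have h4 : (univ.filter fun v : V => ¬ (s e ∈ ({v} : Finset V) ↔ t e ∈ ({v} : Finset V))) =
          {s e, t e} := by
        ext v
        simp only [Finset.mem_filter, Finset.mem_univ, true_and, Finset.mem_singleton,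
          Finset.mem_insert]
        constructor
        · intro hv
          by_contra hc
          push Not at hc
          apply hv
          constructor
          · intro h5
            exact absurd h5.symm hc.1
          · intro h5
            exact absurd h5.symm hc.2
        · rintro (rfl | rfl)
          · intro h5
            exact he (h5.1 rfl).symm
          · intro h5
            exact he (h5.2 rfl)
      rw [h4, Finset.card_pair he, if_pos he, mul_one]
  have h3 : ∑ _v : V, 2 * l ≤ ∑ v : V, bd s t {v} := Finset.sum_le_sum fun v _ => h1 v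
  rw [h2, Finset.sum_const, Finset.card_univ, smul_eq_mul] at h3
  nlinarith

/-- PLAN. `V ≃ Fin (card V)`. -/
theorem sj_one {V E : Type} [Fintype V] [Fintype E] (s t : E → V) (k : ℕ) :
    sj s t k (1 : ℝ) = su (Fintype.card V) k := by
  unfold sj su
  simp only [one_pow, Finset.sum_const, nsmul_eq_mul, mul_one]
  congr 1
  let e := Fintype.equivFin V
  refine Finset.card_bij' (fun x _ => x ∘ e.symm) (fun y _ => y ∘ e) ?_ ?_ ?_ ?_
  · intro x hx
    exact Finset.mem_filter.2 ⟨Finset.mem_univ _, (Finset.mem_filter.1 hx).2.comp e.symm.surjective⟩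
  · intro y hy
    exact Finset.mem_filter.2 ⟨Finset.mem_univ _, (Finset.mem_filter.1 hy).2.comp e.surjective⟩
  · intro x _
    funext v
    simp
  · intro y _
    funext v
    simp

/-- The case of one vertex. PLAN. `k = 0`: no surjection; `k = 1`: one, with `bich = 0`. -/
theorem sj_single {V E : Type} [Fintype V] [Fintype E] (s t : E → V) (hV : Fintype.card V = 1)
    (c : ℕ → ℝ) (a : ℝ) :
    ∑ k ∈ range (Fintype.card V + 1), c k * sj s t k a = c 1 := by
  obtain ⟨v₀, hv₀⟩ := Fintype.card_eq_one_iff.1 hV
  rw [hV, Finset.sum_range_succ, Finset.sum_range_one]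
  have h0 : sj s t 0 a = 0 := by
    unfold sj
    refine Finset.sum_eq_zero fun x _ => ?_
    exact (x v₀).elim0
  have h1 : sj s t 1 a = 1 := by
    unfold sj
    have h2 : (univ.filter fun x : V → Fin 1 => Function.Surjective x) = {fun _ => 0} := by
      ext x
      simp only [Finset.mem_filter, Finset.mem_univ, true_and, Finset.mem_singleton]
      constructor
      · intro _
        funext v
        exact Subsingleton.elim _ _
      · rintro rfl
        intro c
        exact ⟨v₀, Subsingleton.elim _ _⟩
    rw [h2, Finset.sum_singleton]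
    have h3 : bich s t (fun _ : V => (0 : Fin 1)) = 0 := by
      unfold bich
      simp
    rw [h3, pow_zero]
  rw [h0, h1]
  ring

theorem sj_nonneg {V E : Type} [Fintype V] [Fintype E] (s t : E → V) (k : ℕ) (a : ℝ)
    (ha : 0 ≤ a) : 0 ≤ sj s t k a := by
  unfold sj
  exact Finset.sum_nonneg fun x _ => pow_nonneg ha _

end Pool.Agent.LibLC4
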