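import Mathlib
import Pool.Agent.LibLC4.Defs

/-!
Row C1: contraction of an edge.
-/

set_option autoImplicit false

namespace Pool.Agent.LibLC4

open Finset Pool.Agent.H69.Flow Pool.Agent.LibFE4
open scoped Classical

theorem card_contract {V E : Type} [Fintype V] (s t : E → V) (e₀ : E) :
    Fintype.card {v : V // v ≠ t e₀} + 1 = Fintype.card V := by
  have h1 := Fintype.card_subtype_compl (fun v : V => v = t e₀)
  have h2 : Fintype.card {v : V // v = t e₀} = 1 := Fintype.card_subtype_eq _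
  have h3 : 0 < Fintype.card V := Fintype.card_pos_iff.2 ⟨t e₀⟩
  have h4 : Fintype.card {v : V // v ≠ t e₀} = Fintype.card {v : V // ¬ v = t e₀} := rfl
  omega

private theorem C1_mem {W : Type} [Fintype W] (k : ℕ) (y : W → Fin k) :
    y ∈ univ.filter (fun x : W → Fin k => Function.Surjective x) ↔ Function.Surjective y := by
  simp

private theorem C1_mv_val {V E : Type} (s t : E → V) (e₀ : E) (h : s e₀ ≠ t e₀)
    (w : {v : V // v ≠ t e₀}) : mv s t e₀ h w.1 = w := by
  unfold mv
  rw [dif_neg w.2]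

private theorem C1_mv_t {V E : Type} (s t : E → V) (e₀ : E) (h : s e₀ ≠ t e₀) :
    mv s t e₀ h (t e₀) = ⟨s e₀, h⟩ := by
  unfold mv
  rw [dif_pos rfl]

private theorem C1_mv_s {V E : Type} (s t : E → V) (e₀ : E) (h : s e₀ ≠ t e₀) :
    mv s t e₀ h (s e₀) = ⟨s e₀, h⟩ := by
  unfold mv
  rw [dif_neg h]

private theorem C1_comp {V E α : Type} (s t : E → V) (e₀ : E) (h : s e₀ ≠ t e₀) (x : V → α)
    (hx : x (s e₀) = x (t e₀)) (v : V) : x (mv s t e₀ h v).1 = x v := by
  by_cases hv : v = t e₀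
  · subst hv
    rw [C1_mv_t]
    exact hx
  · unfold mv
    rw [dif_neg hv]

/-- PLAN. `x ↦ x ∘ Subtype.val` is a bijection from the surjective colourings with
`x (s e₀) = x (t e₀)` to the surjective colourings of the contraction, with inverse
`y ↦ y ∘ mv s t e₀ h`; `x (s e) = x' (mv (s e))`, so `bich` is the same. -/
theorem sj_contract {V E R : Type} [Fintype V] [Fintype E] [CommSemiring R] (s t : E → V)
    (e₀ : E) (h : s e₀ ≠ t e₀) (k : ℕ) (a : R) :
    ∑ x ∈ univ.filter (fun x : V → Fin k => Function.Surjective x ∧ x (s e₀) = x (t e₀)),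
      a ^ bich s t x = sj (fun e => mv s t e₀ h (s e)) (fun e => mv s t e₀ h (t e)) k a := by
  unfold sj
  refine Finset.sum_nbij' (fun x => fun w => x w.1) (fun y => fun v => y (mv s t e₀ h v))
    ?_ ?_ ?_ ?_ ?_
  · intro x hx
    obtain ⟨hx1, hx2⟩ := (Finset.mem_filter.1 hx).2
    refine (C1_mem k _).2 fun c => ?_
    obtain ⟨v, hv⟩ := hx1 c
    exact ⟨mv s t e₀ h v, by rw [← hv]; exact C1_comp s t e₀ h x hx2 v⟩
  · intro y hy
    have hy1 := (C1_mem k y).1 hy
    refine Finset.mem_filter.2 ⟨Finset.mem_univ _, fun c => ?_, ?_⟩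
    · obtain ⟨w, hw⟩ := hy1 c
      exact ⟨w.1, by simp only [C1_mv_val]; exact hw⟩
    · simp only [C1_mv_s, C1_mv_t]
  · intro x hx
    funext v
    exact C1_comp s t e₀ h x (Finset.mem_filter.1 hx).2.2 v
  · intro y _
    funext w
    simp only [C1_mv_val]
  · intro x hx
    have hx2 := (Finset.mem_filter.1 hx).2.2
    congr 1
    unfold bich
    congr 1
    ext e
    simp only [Finset.mem_filter, Finset.mem_univ, true_and]
    rw [C1_comp s t e₀ h x hx2, C1_comp s t e₀ h x hx2]

/-- PLAN. The preimage of `S` under `mv s t e₀ h` is neither empty nor everything and has the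
same boundary. -/
theorem cut_contract {V E : Type} [Fintype V] [Fintype E] (s t : E → V) (e₀ : E)
    (h : s e₀ ≠ t e₀) (d : ℕ)
    (hd : ∀ S : Finset V, S.Nonempty → S ≠ univ → d ≤ bd s t S) :
    ∀ S : Finset {v : V // v ≠ t e₀}, S.Nonempty → S ≠ univ →
      d ≤ bd (fun e => mv s t e₀ h (s e)) (fun e => mv s t e₀ h (t e)) S := by
  intro S hS1 hS2
  have h1 := hd (univ.filter fun v => mv s t e₀ h v ∈ S) ?_ ?_
  · have e1 : bd s t (univ.filter fun v => mv s t e₀ h v ∈ S) =
        bd (fun e => mv s t e₀ h (s e)) (fun e => mv s t e₀ h (t e)) S := by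
      unfold bd
      congr 1
      ext e
      simp only [Finset.mem_filter, Finset.mem_univ, true_and]
    rwa [e1] at h1
  · obtain ⟨w, hw⟩ := hS1
    exact ⟨w.1, Finset.mem_filter.2 ⟨Finset.mem_univ _, by rwa [C1_mv_val]⟩⟩
  · intro hu
    apply hS2
    refine Finset.eq_univ_iff_forall.2 fun w => ?_
    have h2 := Finset.eq_univ_iff_forall.1 hu w.1
    have h3 := (Finset.mem_filter.1 h2).2
    rwa [C1_mv_val] at h3

end Pool.Agent.LibLC4
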