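import Mathlib
import Pool.Agent.LibLC4.C1

/-!
Row C3: the derivative.
-/

set_option autoImplicit false

namespace Pool.Agent.LibLC4

open Finset Pool.Agent.H69.Flow Pool.Agent.LibFE4
open scoped Classical

/-- PLAN. The derivative is `∑ x surjective, bich x * a ^ (bich x - 1)`. Multiplied by `a` it is
`∑ x, bich x * a ^ bich x = ∑ e, ∑ (x with x (s e) ≠ x (t e)), a ^ bich x` (only edges which are
not loops contribute), and for such `e` the inner sum is `sj s t k a` minus the sum over the `x` with
`x (s e) = x (t e)`, which is `sj_contract`. -/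
theorem sj_deriv {V E : Type} [Fintype V] [Fintype E] (s t : E → V) (k : ℕ) (a : ℝ) :
    ∃ d : ℝ, HasDerivAt (fun a : ℝ => sj s t k a) d a ∧
      a * d = ∑ e : {e : E // s e ≠ t e}, (sj s t k a -
        sj (fun f => mv s t e.1 e.2 (s f)) (fun f => mv s t e.1 e.2 (t f)) k a) := by
  refine ⟨∑ x ∈ univ.filter (fun x : V → Fin k => Function.Surjective x),
    (bich s t x : ℝ) * a ^ (bich s t x - 1), ?_, ?_⟩
  · unfold sj
    exact HasDerivAt.fun_sum fun x _ => hasDerivAt_pow (bich s t x) a
  · have h1 : ∀ x : V → Fin k, (bich s t x : ℝ) =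
        ∑ e : {e : E // s e ≠ t e}, if x (s e.1) ≠ x (t e.1) then (1 : ℝ) else 0 := by
      intro x
      rw [← Finset.sum_subtype (univ.filter fun e => s e ≠ t e) (by simp)
        (fun e => if x (s e) ≠ x (t e) then (1 : ℝ) else 0), Finset.sum_filter_of_ne]
      · unfold bich
        rw [Finset.sum_boole]
        congr
      · intro e _ he h
        refine he ?_
        rw [if_neg]
        rw [not_not, h]
    have h2 : ∀ x : V → Fin k, a * ((bich s t x : ℝ) * a ^ (bich s t x - 1)) =
        ∑ e : {e : E // s e ≠ t e}, if x (s e.1) ≠ x (t e.1) then a ^ bich s t x else 0 := by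
      intro x
      have h3 : a * ((bich s t x : ℝ) * a ^ (bich s t x - 1)) =
          (bich s t x : ℝ) * a ^ bich s t x := by
        rcases Nat.eq_zero_or_pos (bich s t x) with h | h
        · rw [h]
          simp
        · obtain ⟨m, hm⟩ := Nat.exists_eq_succ_of_ne_zero h.ne'
          rw [hm, Nat.succ_sub_one, pow_succ]
          ring
      rw [h3, h1, Finset.sum_mul]
      refine Finset.sum_congr rfl fun e _ => ?_
      split_ifs <;> simp
    rw [Finset.mul_sum, Finset.sum_congr rfl (fun x _ => h2 x), Finset.sum_comm]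
    refine Finset.sum_congr rfl fun e _ => ?_
    rw [← sj_contract s t e.1 e.2 k a, eq_sub_iff_add_eq, ← Finset.filter_filter,
      Finset.sum_filter (fun x : V → Fin k => x (s e.1) = x (t e.1)), ← Finset.sum_add_distrib]
    unfold sj
    refine Finset.sum_congr rfl fun x _ => ?_
    by_cases h : x (s e.1) = x (t e.1)
    · rw [if_neg (not_not.2 h), if_pos h, zero_add]
    · rw [if_pos h, if_neg h, add_zero]

end Pool.Agent.LibLC4
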