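import Mathlib
import Pool.Agent.LibLC4.Defs

/-!
Row H1: the majorant.
-/

set_option autoImplicit false

namespace Pool.Agent.LibLC4

open Finset
open scoped Classical

private lemma H1_choose (m j : ℕ) (hj : 1 ≤ j) :
    ((m + 1 : ℕ) : ℝ) * ((((m + 1).choose j : ℕ) : ℝ) - ((m.choose j : ℕ) : ℝ)) =
      (j : ℝ) * (((m + 1).choose j : ℕ) : ℝ) := by
  obtain ⟨i, rfl⟩ : ∃ i, j = i + 1 := ⟨j - 1, by omega⟩
  have h1 : (m + 1).choose (i + 1) = m.choose i + m.choose (i + 1) := Nat.choose_succ_succ m i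
  have h2 : (m + 1) * m.choose i = (m + 1).choose (i + 1) * (i + 1) := Nat.add_one_mul_choose_eq m i
  have h3 : (((m + 1).choose (i + 1) : ℕ) : ℝ) - ((m.choose (i + 1) : ℕ) : ℝ) =
      ((m.choose i : ℕ) : ℝ) := by
    rw [h1]
    push_cast
    ring
  rw [h3]
  have h4 : ((m + 1 : ℕ) : ℝ) * ((m.choose i : ℕ) : ℝ) =
      (((m + 1).choose (i + 1) : ℕ) : ℝ) * ((i + 1 : ℕ) : ℝ) := by exact_mod_cast h2
  rw [h4, mul_comm]

private lemma H1_ext (c : ℕ → ℝ) (m : ℕ) (hm : 1 ≤ m) (u : ℝ) :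
    hh c m u = c 1 + ∑ j ∈ Icc 2 (m + 1), (m.choose j : ℝ) * BB c j * u ^ j := by
  unfold hh
  rw [Finset.sum_Icc_succ_top (by omega : 2 ≤ m + 1), Nat.choose_succ_self]
  simp

theorem BB_nonneg (c : ℕ → ℝ) (hc : ∀ k, 0 ≤ c k) (j : ℕ) : 0 ≤ BB c j := by
  unfold BB
  exact Finset.sum_nonneg fun k _ => mul_nonneg (hc k) (Nat.cast_nonneg _)

/-- PLAN. `n * (C(n, j) - C(n - 1, j)) = n * C(n - 1, j - 1) = j * C(n, j)`. -/
theorem hh_deriv (c : ℕ → ℝ) (n : ℕ) (hn : 2 ≤ n) (u : ℝ) :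
    ∃ d : ℝ, HasDerivAt (fun u : ℝ => hh c n u) d u ∧
      u * d = n * (hh c n u - hh c (n - 1) u) := by
  obtain ⟨m, rfl⟩ : ∃ m, n = m + 1 := ⟨n - 1, by omega⟩
  refine ⟨∑ j ∈ Icc 2 (m + 1), ((m + 1).choose j : ℝ) * BB c j * (j * u ^ (j - 1)), ?_, ?_⟩
  · unfold hh
    have h1 : HasDerivAt (fun u : ℝ => ∑ j ∈ Icc 2 (m + 1), ((m + 1).choose j : ℝ) * BB c j * u ^ j)
        (∑ j ∈ Icc 2 (m + 1), ((m + 1).choose j : ℝ) * BB c j * (j * u ^ (j - 1))) u := by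
      refine HasDerivAt.fun_sum fun j _ => ?_
      exact (hasDerivAt_pow j u).const_mul _
    have h2 := h1.const_add (c 1)
    exact h2
  · have h0 : m + 1 - 1 = m := by omega
    rw [h0, H1_ext c m (by omega) u]
    unfold hh
    rw [add_sub_add_left_eq_sub, ← Finset.sum_sub_distrib, Finset.mul_sum, Finset.mul_sum]
    refine Finset.sum_congr rfl fun j hj => ?_
    rw [Finset.mem_Icc] at hj
    have h1 := H1_choose m j (by omega)
    have h2 : u * u ^ (j - 1) = u ^ j := by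
      rw [← pow_succ']
      congr 1
      omega
    calc u * (((m + 1).choose j : ℝ) * BB c j * (j * u ^ (j - 1)))
        = ((j : ℝ) * (((m + 1).choose j : ℕ) : ℝ)) * BB c j * (u * u ^ (j - 1)) := by ring
      _ = (((m + 1 : ℕ) : ℝ) * ((((m + 1).choose j : ℕ) : ℝ) - ((m.choose j : ℕ) : ℝ))) *
            BB c j * u ^ j := by rw [h1, h2]
      _ = _ := by ring

theorem hh_mono (c : ℕ → ℝ) (hc : ∀ k, 0 ≤ c k) (n : ℕ) (hn : 2 ≤ n) (u : ℝ) (hu : 0 ≤ u) :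
    hh c (n - 1) u ≤ hh c n u := by
  obtain ⟨m, rfl⟩ : ∃ m, n = m + 1 := ⟨n - 1, by omega⟩
  have h0 : m + 1 - 1 = m := by omega
  rw [h0, H1_ext c m (by omega) u]
  unfold hh
  refine add_le_add le_rfl (Finset.sum_le_sum fun j _ => ?_)
  refine mul_le_mul_of_nonneg_right ?_ (pow_nonneg hu j)
  refine mul_le_mul_of_nonneg_right ?_ (BB_nonneg c hc j)
  exact_mod_cast Nat.choose_le_choose j (Nat.le_succ m)

/-- PLAN. The term `j = n`. -/
theorem BB_le_hh (c : ℕ → ℝ) (hc : ∀ k, 0 ≤ c k) (n : ℕ) (hn : 2 ≤ n) : BB c n ≤ hh c n 1 := by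
  unfold hh
  have h1 : (n.choose n : ℝ) * BB c n * (1 : ℝ) ^ n ≤
      ∑ j ∈ Icc 2 n, (n.choose j : ℝ) * BB c j * (1 : ℝ) ^ j := by
    refine Finset.single_le_sum (f := fun j => (n.choose j : ℝ) * BB c j * (1 : ℝ) ^ j) ?_
      (Finset.mem_Icc.2 ⟨hn, le_rfl⟩)
    intro j _
    have := BB_nonneg c hc j
    positivity
  rw [Nat.choose_self] at h1
  have h2 := hc 1
  simp only [Nat.cast_one, one_mul, one_pow, mul_one] at h1 ⊢
  linarith

theorem hh_single (c : ℕ → ℝ) (u : ℝ) : hh c 1 u = c 1 := by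
  unfold hh
  simp

end Pool.Agent.LibLC4
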