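import Mathlib
import Pool.Agent.LibLC4.Defs

/-!
Row H2: the comparison of two functions.
-/

set_option autoImplicit false

namespace Pool.Agent.LibLC4

/-- PLAN. `D a / a ^ m` has the derivative `(a * D' a - m * D a) / a ^ (m + 1) ≥ 0` on `(0, 1]`, so it is
monotone there (`monotoneOn_of_deriv_nonneg`), and it is `≤ 0` at `1`. -/
theorem compare (D D' : ℝ → ℝ) (m : ℕ) (hD : ∀ a, HasDerivAt D (D' a) a)
    (h : ∀ a, 0 < a → a ≤ 1 → m * D a ≤ a * D' a) (h1 : D 1 ≤ 0) (a : ℝ) (ha : 0 < a)
    (ha1 : a ≤ 1) : D a ≤ 0 := by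
  have hder : ∀ b : ℝ, 0 < b → HasDerivAt (fun x => D x / x ^ m)
      ((D' b * b ^ m - D b * (m * b ^ (m - 1))) / (b ^ m) ^ 2) b := by
    intro b hb
    exact (hD b).div (hasDerivAt_pow m b) (pow_pos hb m).ne'
  have hmono : MonotoneOn (fun x => D x / x ^ m) (Set.Icc a 1) := by
    apply monotoneOn_of_deriv_nonneg (convex_Icc a 1)
    · intro b hb
      exact (hder b (lt_of_lt_of_le ha hb.1)).continuousAt.continuousWithinAt
    · intro b hb
      rw [interior_Icc] at hb
      exact (hder b (ha.trans hb.1)).differentiableAt.differentiableWithinAt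
    · intro b hb
      rw [interior_Icc] at hb
      have hb0 : 0 < b := ha.trans hb.1
      rw [(hder b hb0).deriv]
      apply div_nonneg _ (by positivity)
      have h2 := h b hb0 hb.2.le
      rcases Nat.eq_zero_or_pos m with hm | hm
      · subst hm
        simp only [CharP.cast_eq_zero, zero_mul, pow_zero, mul_one, mul_zero, sub_zero] at h2 ⊢
        by_contra hneg
        push Not at hneg
        nlinarith
      · have e1 : b ^ m = b ^ (m - 1) * b := by
          rw [← pow_succ, Nat.sub_add_cancel hm]
        rw [e1]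
        have h3 : 0 < b ^ (m - 1) := pow_pos hb0 _
        nlinarith
  have := hmono (Set.left_mem_Icc.2 ha1) (Set.right_mem_Icc.2 ha1) ha1
  simp only [one_pow, div_one] at this
  have h4 : D a / a ^ m ≤ 0 := this.trans h1
  have h5 : 0 < a ^ m := pow_pos ha m
  by_contra hcon
  push Not at hcon
  have := div_pos hcon h5
  linarith

end Pool.Agent.LibLC4
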