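import Mathlib
import Pool.Agent.LibLC4.Defs

/-!
Row N3: all colourings with `m` colours, grouped by the set of the colours which occur.
-/

set_option autoImplicit false

namespace Pool.Agent.LibLC4

open Finset Pool.Agent.H69.Flow Pool.Agent.LibFE4
open scoped Classical

private theorem N3_bich_comp {V E α β : Type} [Fintype E] (s t : E → V) (x : V → α)
    (f : α → β) (hf : Function.Injective f) : bich s t (f ∘ x) = bich s t x := by
  unfold bich
  congr 1
  ext e
  simp only [mem_filter, mem_univ, true_and, Function.comp_apply, ne_eq, hf.eq_iff]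

/-- The surjective colourings for a finite type with `k` elements instead of `Fin k`.
PLAN. Compose with an equivalence `α ≃ Fin k`. -/
theorem sj_type {V E R α : Type} [Fintype V] [Fintype E] [CommSemiring R] [Fintype α]
    (s t : E → V) (k : ℕ) (hk : Fintype.card α = k) (a : R) :
    ∑ x ∈ univ.filter (fun x : V → α => Function.Surjective x), a ^ bich s t x = sj s t k a := by
  have e : α ≃ Fin k := Fintype.equivFinOfCardEq hk
  unfold sj
  refine Finset.sum_equiv (Equiv.arrowCongr (Equiv.refl V) e) ?_ ?_
  · intro x
    simp only [mem_filter, mem_univ, true_and]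
    have h1 : (Equiv.arrowCongr (Equiv.refl V) e) x = e ∘ x := rfl
    rw [h1]
    exact (EquivLike.comp_surjective x e).symm
  · intro x _
    have h1 : (Equiv.arrowCongr (Equiv.refl V) e) x = e ∘ x := rfl
    rw [h1]
    congr 1
    exact (N3_bich_comp s t x e e.injective).symm

/-- PLAN. A surjection needs `k ≤ |V|`. -/
theorem sj_zero {V E R : Type} [Fintype V] [Fintype E] [CommSemiring R] (s t : E → V)
    (k : ℕ) (hk : Fintype.card V < k) (a : R) : sj s t k a = 0 := by
  unfold sj
  apply Finset.sum_eq_zero
  intro x hx
  have h1 := Fintype.card_le_of_surjective x (mem_filter.1 hx).2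
  rw [Fintype.card_fin] at h1
  omega

private theorem N3_mem {α : Type} [Fintype α] {p : α → Prop} {inst : DecidablePred p} {a : α} :
    a ∈ @Finset.filter α p inst univ ↔ p a := by
  simp

private theorem N3_fiber {V E R : Type} [Fintype V] [Fintype E] [CommSemiring R] (s t : E → V)
    {m : ℕ} (I : Finset (Fin m)) (a : R) :
    ∑ x ∈ univ.filter (fun x : V → Fin m => univ.image x = I), a ^ bich s t x =
      sj s t I.card a := by
  rw [← sj_type (α := {i // i ∈ I}) s t I.card (Fintype.card_coe I) a]
  refine Finset.sum_bij'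
    (fun x hx => fun v => (⟨x v, by
      rw [← (mem_filter.1 hx).2]
      exact mem_image_of_mem _ (mem_univ v)⟩ : {i // i ∈ I}))
    (fun y _ => fun v => (y v).1) ?_ ?_ ?_ ?_ ?_
  · intro x hx
    refine N3_mem.2 ?_
    rintro ⟨i, hi⟩
    rw [← (mem_filter.1 hx).2] at hi
    obtain ⟨v, _, hv⟩ := mem_image.1 hi
    exact ⟨v, Subtype.ext hv⟩
  · intro y hy
    refine mem_filter.2 ⟨mem_univ _, ?_⟩
    ext i
    rw [mem_image]
    constructor
    · rintro ⟨v, _, rfl⟩
      exact (y v).2
    · intro hi
      obtain ⟨v, hv⟩ := N3_mem.1 hy ⟨i, hi⟩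
      exact ⟨v, mem_univ _, by rw [hv]⟩
  · intro x hx
    rfl
  · intro y hy
    rfl
  · intro x hx
    congr 1
    unfold bich
    congr 1
    ext e
    simp only [mem_filter, mem_univ, true_and, ne_eq, Subtype.mk.injEq]

/-- PLAN. Group by `I = univ.image x` (`Finset.sum_fiberwise`): the colourings with image `I`
are the surjections onto `I` (`sj_type` for `α = {i // i ∈ I}`), there are `m.choose k` sets `I` of `k` elements, and
the terms with `k > |V|` vanish. -/
theorem sum_all {V E R : Type} [Fintype V] [Fintype E] [CommSemiring R] (s t : E → V)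
    (m : ℕ) (a : R) :
    ∑ x : V → Fin m, a ^ bich s t x =
      ∑ k ∈ range (Fintype.card V + 1), (m.choose k : R) * sj s t k a := by
  have h1 : ∑ x : V → Fin m, a ^ bich s t x =
      ∑ I : Finset (Fin m), ∑ x ∈ univ.filter (fun x : V → Fin m => univ.image x = I),
        a ^ bich s t x := (Finset.sum_fiberwise _ _ _).symm
  have h2 : ∀ I : Finset (Fin m), ∑ x ∈ univ.filter (fun x : V → Fin m => univ.image x = I),
        a ^ bich s t x = sj s t I.card a := fun I => N3_fiber s t I a
  rw [h1, Finset.sum_congr rfl (fun I _ => h2 I)]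
  have h3 : ∑ I : Finset (Fin m), sj s t I.card a =
      ∑ k ∈ range (m + 1), (m.choose k : R) * sj s t k a := by
    have := Finset.sum_powerset_apply_card (fun k => sj s t k a)
      (x := (univ : Finset (Fin m)))
    rw [Finset.powerset_univ, Finset.card_univ, Fintype.card_fin] at this
    rw [this]
    exact Finset.sum_congr rfl fun k _ => by rw [nsmul_eq_mul]
  rw [h3]
  have h4 : ∑ k ∈ range (m + 1), (m.choose k : R) * sj s t k a =
      ∑ k ∈ range (max (m + 1) (Fintype.card V + 1)), (m.choose k : R) * sj s t k a := by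
    apply Finset.sum_subset (Finset.range_subset_range.2 (le_max_left _ _))
    intro k _ hk
    rw [mem_range] at hk
    rw [Nat.choose_eq_zero_of_lt (by omega), Nat.cast_zero, zero_mul]
  have h5 : ∑ k ∈ range (Fintype.card V + 1), (m.choose k : R) * sj s t k a =
      ∑ k ∈ range (max (m + 1) (Fintype.card V + 1)), (m.choose k : R) * sj s t k a := by
    apply Finset.sum_subset (Finset.range_subset_range.2 (le_max_right _ _))
    intro k _ hk
    rw [mem_range] at hk
    rw [sj_zero s t k (by omega), mul_zero]
  rw [h4, h5]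

end Pool.Agent.LibLC4
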