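import Mathlib
import Pool.Agent.LibLC4.C2
import Pool.Agent.LibLC4.C3
import Pool.Agent.LibLC4.N3
import Pool.Agent.LibLC4.H1
import Pool.Agent.LibLC4.H2

/-!
Row M1: the main inequality.
-/

set_option autoImplicit false

namespace Pool.Agent.LibLC4

open Finset Pool.Agent.H69.Flow Pool.Agent.LibFE4
open scoped Classical

/-- PLAN. Induction on `n = card V`. `n = 1`: `sj_single`, `hh_single`. `n ≥ 2`: `compare` with
`D a = (∑ k, c k * sj s t k a) - hh c n (a ^ l)` and `m` the number of edges which are not loops.
By `sj_deriv`, `a * (∑ ...)' = ∑ e, (g_G - g_{G/e}) ≥ m * (g_G - hh c (n - 1) (a ^ l))` (induction hypothesis,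
`card_contract`, `cut_contract`; the sums for `G/e` have one more term, which is `0` by `sj_zero`); by `hh_deriv` and
the chain rule `a * (hh c n (a ^ l))' = l * n * (hh c n u - hh c (n - 1) u) ≤ m * (hh c n u - hh c (n - 1) u)`
with `u = a ^ l` (`edges_lower`, `hh_mono`). `D 1 ≤ 0` by `sj_one` and `BB_le_hh`. -/
theorem main_ineq (c : ℕ → ℝ) (hc : ∀ k, 0 ≤ c k) (l : ℕ) (n : ℕ) (hn : 1 ≤ n) :
    ∀ (V E : Type) (_ : Fintype V) (_ : Fintype E) (s t : E → V), Fintype.card V = n →
      (∀ S : Finset V, S.Nonempty → S ≠ univ → 2 * l ≤ bd s t S) →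
      ∀ a : ℝ, 0 < a → a ≤ 1 →
        ∑ k ∈ range (n + 1), c k * sj s t k a ≤ hh c n (a ^ l) := by
  induction n, hn using Nat.le_induction with
  | base =>
    intro V E _ _ s t hV hd a ha ha1
    have h1 := sj_single s t hV c a
    rw [hV] at h1
    rw [h1, hh_single]
  | succ n hn ih =>
    intro V E _ _ s t hV hd a ha ha1
    have h2 : 2 ≤ n + 1 := by omega
    have hed := edges_lower s t l (by omega) hd
    rw [hV] at hed
    choose ds hds using fun k a => sj_deriv s t k a
    choose dh hdh using fun u => hh_deriv c (n + 1) h2 u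
    have key := compare
      (fun a => (∑ k ∈ range (n + 1 + 1), c k * sj s t k a) - hh c (n + 1) (a ^ l))
      (fun a => (∑ k ∈ range (n + 1 + 1), c k * ds k a) - dh (a ^ l) * (l * a ^ (l - 1)))
      (Fintype.card {e : E // s e ≠ t e}) ?_ ?_ ?_ a ha ha1
    · simpa using key
    · intro a
      refine HasDerivAt.sub ?_ ?_
      · refine HasDerivAt.fun_sum fun k _ => ?_
        exact (hds k a).1.const_mul (c k)
      · exact (hdh (a ^ l)).1.comp a (hasDerivAt_pow l a)
    · intro a ha ha1
      have hu0 : 0 ≤ a ^ l := by positivity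
      have hmono := hh_mono c hc (n + 1) h2 (a ^ l) hu0
      simp only [Nat.add_sub_cancel] at hmono
      have hal : a * ((l : ℝ) * a ^ (l - 1)) = l * a ^ l := by
        rcases Nat.eq_zero_or_pos l with h0 | h0
        · simp [h0]
        · obtain ⟨j, rfl⟩ : ∃ j, l = j + 1 := ⟨l - 1, by omega⟩
          simp only [Nat.add_sub_cancel, pow_succ]
          ring
      have hh1 : a * (dh (a ^ l) * (l * a ^ (l - 1))) =
          l * ((n + 1 : ℕ) * (hh c (n + 1) (a ^ l) - hh c n (a ^ l))) := by
        have h3 := (hdh (a ^ l)).2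
        simp only [Nat.add_sub_cancel] at h3
        calc a * (dh (a ^ l) * (l * a ^ (l - 1))) = dh (a ^ l) * (a * (l * a ^ (l - 1))) := by
              ring
          _ = l * (a ^ l * dh (a ^ l)) := by rw [hal]; ring
          _ = _ := by rw [h3]
      have hs1 : a * ∑ k ∈ range (n + 1 + 1), c k * ds k a =
          ∑ e : {e : E // s e ≠ t e}, ((∑ k ∈ range (n + 1 + 1), c k * sj s t k a) -
            ∑ k ∈ range (n + 1 + 1), c k * sj (fun f => mv s t e.1 e.2 (s f))
              (fun f => mv s t e.1 e.2 (t f)) k a) := by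
        rw [Finset.mul_sum]
        have h4 : ∀ k ∈ range (n + 1 + 1), a * (c k * ds k a) =
            ∑ e : {e : E // s e ≠ t e}, (c k * sj s t k a -
              c k * sj (fun f => mv s t e.1 e.2 (s f)) (fun f => mv s t e.1 e.2 (t f)) k a) := by
          intro k _
          have h5 := (hds k a).2
          calc a * (c k * ds k a) = c k * (a * ds k a) := by ring
            _ = _ := by
              rw [h5, Finset.mul_sum]
              refine Finset.sum_congr rfl fun e _ => ?_
              ring
        rw [Finset.sum_congr rfl h4, Finset.sum_comm]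
        refine Finset.sum_congr rfl fun e _ => ?_
        rw [Finset.sum_sub_distrib]
      have hle : ∀ e : {e : E // s e ≠ t e},
          ∑ k ∈ range (n + 1 + 1), c k * sj (fun f => mv s t e.1 e.2 (s f))
              (fun f => mv s t e.1 e.2 (t f)) k a ≤ hh c n (a ^ l) := by
        intro e
        have hcard : Fintype.card {v : V // v ≠ t e.1} = n := by
          have := card_contract s t e.1
          omega
        have h6 := ih {v : V // v ≠ t e.1} E inferInstance inferInstance
          (fun f => mv s t e.1 e.2 (s f)) (fun f => mv s t e.1 e.2 (t f)) (by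
            rw [← hcard]) (cut_contract s t e.1 e.2 (2 * l) hd) a ha ha1
        rw [Finset.sum_range_succ, sj_zero _ _ (n + 1) (by rw [hcard]; omega)]
        simpa using h6
      have hsum : ∑ e : {e : E // s e ≠ t e},
          ((∑ k ∈ range (n + 1 + 1), c k * sj s t k a) - hh c n (a ^ l)) ≤
          a * ∑ k ∈ range (n + 1 + 1), c k * ds k a := by
        rw [hs1]
        exact Finset.sum_le_sum fun e _ => sub_le_sub_left (hle e) _
      rw [Finset.sum_const, Finset.card_univ, nsmul_eq_mul] at hsum
      have hed2 : ((n + 1 : ℕ) : ℝ) * l ≤ (Fintype.card {e : E // s e ≠ t e} : ℝ) := by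
        rw [Fintype.card_subtype]
        exact_mod_cast hed
      have hm : (l : ℝ) * ((n + 1 : ℕ) * (hh c (n + 1) (a ^ l) - hh c n (a ^ l))) ≤
          (Fintype.card {e : E // s e ≠ t e} : ℝ) *
            (hh c (n + 1) (a ^ l) - hh c n (a ^ l)) := by
        have h7 : 0 ≤ hh c (n + 1) (a ^ l) - hh c n (a ^ l) := by linarith
        calc (l : ℝ) * ((n + 1 : ℕ) * (hh c (n + 1) (a ^ l) - hh c n (a ^ l)))
            = (((n + 1 : ℕ) : ℝ) * l) * (hh c (n + 1) (a ^ l) - hh c n (a ^ l)) := by ring
          _ ≤ _ := mul_le_mul_of_nonneg_right hed2 h7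
      rw [mul_sub a, hh1]
      nlinarith [hsum, hm]
    · simp only [one_pow]
      have h8 := BB_le_hh c hc (n + 1) h2
      have h9 : ∑ k ∈ range (n + 1 + 1), c k * sj s t k (1 : ℝ) = BB c (n + 1) := by
        unfold BB
        refine Finset.sum_congr rfl fun k _ => ?_
        rw [sj_one, hV]
      rw [h9]
      linarith

end Pool.Agent.LibLC4
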