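import Mathlib
import Pool.Agent.LibLC4.Defs

/-!
Row N1: the sum over the edge sets for a given colouring.
-/

set_option autoImplicit false

namespace Pool.Agent.LibLC4

open Finset Pool.Agent.H69.Flow Pool.Agent.LibFE4
open scoped Classical

/-- PLAN. The sum is over the subsets `A` of `M = {e | x (s e) = x (t e)}`; `|E| - |A| =
(|M| - |A|) + bich`, and `Σ_{A ⊆ M} (1 - ζ) ^ |A| ζ ^ (|M| - |A|) = (1 - ζ + ζ) ^ |M| = 1`
(`Finset.sum_pow_mul_eq_add_pow`). -/
theorem sum_colouring {V E α : Type} [Fintype E] (s t : E → V) (x : V → α) (ζ : ℂ) :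
    ∑ A : Finset E, (1 - ζ) ^ A.card * ζ ^ (Fintype.card E - A.card) *
      (if ∀ e ∈ A, x (s e) = x (t e) then 1 else 0) = ζ ^ bich s t x := by
  set M : Finset E := univ.filter fun e => x (s e) = x (t e) with hM
  have hsplit : M.card + bich s t x = Fintype.card E := by
    rw [hM, bich, ← Finset.card_univ]
    exact Finset.card_filter_add_card_filter_not (fun e => x (s e) = x (t e))
  have h1 : ∑ A : Finset E, (1 - ζ) ^ A.card * ζ ^ (Fintype.card E - A.card) *
      (if ∀ e ∈ A, x (s e) = x (t e) then 1 else 0) =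
      ∑ A ∈ M.powerset, (1 - ζ) ^ A.card * ζ ^ (Fintype.card E - A.card) := by
    simp_rw [mul_ite, mul_one, mul_zero]
    rw [← Finset.sum_filter]
    apply Finset.sum_congr _ fun _ _ => rfl
    ext A
    simp only [mem_filter, mem_univ, true_and, mem_powerset, hM]
    constructor
    · intro h e he
      exact mem_filter.2 ⟨mem_univ _, h e he⟩
    · intro h e he
      exact (mem_filter.1 (h he)).2
  rw [h1]
  have h2 : ∀ A ∈ M.powerset, (1 - ζ) ^ A.card * ζ ^ (Fintype.card E - A.card) =
      ((1 - ζ) ^ A.card * ζ ^ (M.card - A.card)) * ζ ^ bich s t x := by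
    intro A hA
    have h3 := Finset.card_le_card (mem_powerset.1 hA)
    rw [show Fintype.card E - A.card = (M.card - A.card) + bich s t x by omega, pow_add]
    ring
  rw [Finset.sum_congr rfl h2, ← Finset.sum_mul, Finset.sum_pow_mul_eq_add_pow]
  simp

end Pool.Agent.LibLC4
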