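import Mathlib
import Pool.Agent.LibLC4.Defs

/-!
Row N2: the number of colourings which are constant on the edges of `A`.
-/

set_option autoImplicit false

namespace Pool.Agent.LibLC4

open Finset Pool.Agent.H69.Flow Pool.Agent.LibFE4
open scoped Classical

/-- The colourings which are constant on the edges of `A` are the functions on the components. -/
def n2_equiv {V E : Type} (s t : E → V) (A : Finset E) (m : ℕ) :
    {x : V → Fin m // ∀ e ∈ A, x (s e) = x (t e)} ≃ (Quot (rel s t A) → Fin m) where
  toFun x := Quot.lift x.1 (by
    rintro a b ⟨e, he, rfl, rfl⟩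
    exact x.2 e he)
  invFun f := ⟨fun v => f (Quot.mk _ v), fun e he =>
    congrArg f (Quot.sound ⟨e, he, rfl, rfl⟩)⟩
  left_inv x := rfl
  right_inv f := by
    funext q
    induction q using Quot.ind
    rfl

/-- PLAN. `comps s t A = Nat.card (Quot (rel s t A))`; the colourings which are constant on the
edges of `A` correspond to the functions on `Quot (rel s t A)` (`Quot.lift`). -/
theorem card_const {V E : Type} [Fintype V] [Fintype E] (s t : E → V) (A : Finset E) (m : ℕ) :
    (univ.filter fun x : V → Fin m => ∀ e ∈ A, x (s e) = x (t e)).card = m ^ comps s t A := by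
  have h1 : (univ.filter fun x : V → Fin m => ∀ e ∈ A, x (s e) = x (t e)).card =
      Nat.card {x : V → Fin m // ∀ e ∈ A, x (s e) = x (t e)} := by
    rw [Nat.card_eq_fintype_card, Fintype.card_subtype]
  rw [h1, Nat.card_congr (n2_equiv s t A m), Nat.card_fun, Nat.card_fin]
  rfl

end Pool.Agent.LibLC4
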