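import Mathlib
import Pool.Agent.LibFE4.T1
import Pool.Agent.LibLC4.N1
import Pool.Agent.LibLC4.N2
import Pool.Agent.LibLC4.N3

/-!
Row N4: the Newton expansion.
-/

set_option autoImplicit false

namespace Pool.Agent.LibLC4

open Finset Pool.Agent.H69.Flow Pool.Agent.LibFE4
open scoped Classical

theorem bc_nat (m k : ℕ) : bc (m : ℂ) k = m.choose k := by
  unfold bc
  induction k with
  | zero => simp
  | succ k ih =>
    rw [prod_range_succ, ih]
    have h1 : ((k : ℂ) + 1) ≠ 0 := by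
      have := Nat.cast_add_one_ne_zero (R := ℂ) k
      exact this
    have h2 : (m.choose k : ℂ) * ((m : ℂ) - k) = (m.choose (k + 1) : ℂ) * ((k : ℂ) + 1) := by
      have h3 := Nat.choose_succ_right_eq m k
      have h4 : ((m.choose (k + 1) * (k + 1) : ℕ) : ℂ) = ((m.choose k * (m - k) : ℕ) : ℂ) := by
        rw [h3]
      push_cast at h4
      rw [h4]
      by_cases hk : k ≤ m
      · rw [Nat.cast_sub hk]
      · rw [Nat.choose_eq_zero_of_lt (by omega), Nat.cast_zero, zero_mul, zero_mul]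
    rw [← mul_div_assoc, h2, mul_div_cancel_right₀ _ h1]

/-- PLAN. `N1` summed over all `x : V → Fin m`, with `N2` and `N3`. -/
theorem newton_nat {V E : Type} [Fintype V] [Fintype E] (s t : E → V) (ζ : ℂ) (m : ℕ) :
    ∑ A : Finset E, (1 - ζ) ^ A.card * ζ ^ (Fintype.card E - A.card) * (m : ℂ) ^ comps s t A =
      ∑ k ∈ range (Fintype.card V + 1), (m.choose k : ℂ) * sj s t k ζ := by
  rw [← sum_all s t m ζ]
  have h1 : ∀ A : Finset E,
      (1 - ζ) ^ A.card * ζ ^ (Fintype.card E - A.card) * (m : ℂ) ^ comps s t A =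
      ∑ x : V → Fin m, (1 - ζ) ^ A.card * ζ ^ (Fintype.card E - A.card) *
        (if ∀ e ∈ A, x (s e) = x (t e) then 1 else 0) := by
    intro A
    rw [← mul_sum, Finset.sum_boole, card_const s t A m]
    push_cast
    rfl
  rw [sum_congr rfl fun A _ => h1 A, sum_comm]
  refine sum_congr rfl fun x _ => ?_
  convert sum_colouring s t x ζ

/-- PLAN. Both sides are polynomials in `z` which agree at all natural numbers
(`Polynomial.funext`-like: `Polynomial.eq_of_infinite_eval_eq`). -/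
theorem newton {V E : Type} [Fintype V] [Fintype E] (s t : E → V) (ζ z : ℂ) :
    ∑ A : Finset E, (1 - ζ) ^ A.card * ζ ^ (Fintype.card E - A.card) * z ^ comps s t A =
      ∑ k ∈ range (Fintype.card V + 1), bc z k * sj s t k ζ := by
  obtain ⟨P, hP⟩ : ∃ P : Polynomial ℂ, P = ∑ A : Finset E,
      Polynomial.C ((1 - ζ) ^ A.card * ζ ^ (Fintype.card E - A.card)) *
        Polynomial.X ^ comps s t A := ⟨_, rfl⟩
  obtain ⟨Q, hQ⟩ : ∃ Q : Polynomial ℂ, Q = ∑ k ∈ range (Fintype.card V + 1),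
      (∏ i ∈ range k, ((Polynomial.X - Polynomial.C (i : ℂ)) *
        Polynomial.C (((i : ℂ) + 1)⁻¹))) * Polynomial.C (sj s t k ζ) := ⟨_, rfl⟩
  have hPe : ∀ y : ℂ, P.eval y = ∑ A : Finset E,
      (1 - ζ) ^ A.card * ζ ^ (Fintype.card E - A.card) * y ^ comps s t A := by
    intro y
    rw [hP, Polynomial.eval_finsetSum]
    refine sum_congr rfl fun A _ => ?_
    rw [Polynomial.eval_mul, Polynomial.eval_C, Polynomial.eval_pow, Polynomial.eval_X]
  have hQe : ∀ y : ℂ, Q.eval y = ∑ k ∈ range (Fintype.card V + 1), bc y k * sj s t k ζ := by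
    intro y
    rw [hQ, Polynomial.eval_finsetSum]
    refine sum_congr rfl fun k _ => ?_
    rw [Polynomial.eval_mul, Polynomial.eval_C, Polynomial.eval_prod]
    unfold bc
    congr 1
    refine prod_congr rfl fun i _ => ?_
    rw [Polynomial.eval_mul, Polynomial.eval_sub, Polynomial.eval_X, Polynomial.eval_C,
      Polynomial.eval_C, div_eq_mul_inv]
  have hPQ : P = Q := by
    refine Polynomial.eq_of_infinite_eval_eq P Q ?_
    refine Set.infinite_of_injective_forall_mem (f := fun m : ℕ => (m : ℂ)) Nat.cast_injective ?_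
    intro m
    show P.eval (m : ℂ) = Q.eval (m : ℂ)
    rw [hPe, hQe, newton_nat s t ζ m]
    exact sum_congr rfl fun k _ => by rw [bc_nat]
  rw [← hPe, ← hQe, hPQ]

/-- PLAN. `newton` with `ζ = -1 / (z - 1)`, so `1 - ζ = z / (z - 1)`. -/
theorem ZZ_newton {V E : Type} [Fintype V] [Fintype E] (s t : E → V) (z : ℂ) (hz : z ≠ 1) :
    ZZ s t z = (z - 1) ^ Fintype.card E *
      ∑ k ∈ range (Fintype.card V + 1), bc z k * sj s t k (-1 / (z - 1)) := by
  have hz1 : z - 1 ≠ 0 := sub_ne_zero.2 hz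
  rw [← newton s t (-1 / (z - 1)) z, mul_sum]
  unfold ZZ
  refine sum_congr rfl fun A _ => ?_
  unfold we
  have hA : A.card ≤ Fintype.card E := card_le_univ A
  have h1 : (1 : ℂ) - -1 / (z - 1) = z / (z - 1) := by
    field_simp
    ring
  have h2 : (z - 1) ^ Fintype.card E = (z - 1) ^ A.card * (z - 1) ^ (Fintype.card E - A.card) := by
    rw [← pow_add, Nat.add_sub_cancel' hA]
  have h3 : (z - 1) ^ A.card * (z / (z - 1)) ^ A.card = z ^ A.card := by
    rw [← mul_pow, mul_div_cancel₀ _ hz1]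
  have h4 : (z - 1) ^ (Fintype.card E - A.card) * (-1 / (z - 1)) ^ (Fintype.card E - A.card) =
      (-1) ^ (Fintype.card E - A.card) := by
    rw [← mul_pow, mul_div_cancel₀ _ hz1]
  rw [h1, h2, ← h3, ← h4]
  ring

end Pool.Agent.LibLC4
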