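import Mathlib
import Pool.Agent.LibLC4.N4
import Pool.Agent.LibLC4.M1
import Pool.Agent.LibLC4.F1

/-!
Row A1: assembly.
-/

set_option autoImplicit false

namespace Pool.Agent.LibLC4

open Finset Pool.Agent.H69.Flow Pool.Agent.LibFE4
open scoped Classical

/-- PLAN. The triangle inequality. -/
theorem sj_norm {V E : Type} [Fintype V] [Fintype E] (s t : E → V) (k : ℕ) (ζ : ℂ) :
    ‖sj s t k ζ‖ ≤ sj s t k ‖ζ‖ := by
  unfold sj
  refine (norm_sum_le _ _).trans (Finset.sum_le_sum fun x _ => ?_)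
  rw [norm_pow]

/-- `k = 1`: the only colouring, for a graph with at least one vertex. -/
theorem sj_one_colour {V E R : Type} [Fintype V] [Fintype E] [CommSemiring R] [Nonempty V]
    (s t : E → V) (a : R) : sj s t 1 a = 1 := by
  unfold sj
  have h1 : (univ.filter fun x : V → Fin 1 => Function.Surjective x) = {fun _ => 0} := by
    ext x
    simp only [mem_filter, mem_univ, true_and, mem_singleton]
    constructor
    · intro _
      funext v
      exact Subsingleton.elim _ _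
    · rintro rfl
      intro i
      exact ⟨Classical.arbitrary V, Subsingleton.elim _ _⟩
  rw [h1, sum_singleton]
  have h2 : bich s t (fun _ : V => (0 : Fin 1)) = 0 := by
    unfold bich
    simp
  rw [h2, pow_zero]

theorem sj_zero_colour {V E R : Type} [Fintype V] [Fintype E] [CommSemiring R] [Nonempty V]
    (s t : E → V) (a : R) : sj s t 0 a = 0 := by
  unfold sj
  apply Finset.sum_eq_zero
  intro x _
  exact Fin.elim0 (x (Classical.arbitrary V))

/-- PLAN. If `ρ ≥ r > 1` and `11 * (r + 2) * n ≤ r ^ l` then `exp 1 * n * (ρ⁻¹) ^ l * (ρ + 2) ≤ 1 / 4`: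
`1 ≤ l`, and `ρ ^ l * (r + 2) ≥ r ^ l * (ρ + 2)` (as `ρ ^ (l - 1) ≥ r ^ (l - 1)` and
`ρ * (r + 2) ≥ r * (ρ + 2)`); `4 * exp 1 < 11` (`Real.exp_one_lt_d9`). -/
theorem numeric (r ρ : ℝ) (n l : ℕ) (hn : 1 ≤ n) (hr : 1 < r) (hρ : r ≤ ρ)
    (h : 11 * (r + 2) * n ≤ r ^ l) : Real.exp 1 * n * (ρ⁻¹) ^ l * (ρ + 2) ≤ 1 / 4 := by
  have hn1 : (1 : ℝ) ≤ n := by exact_mod_cast hn
  have hl : l ≠ 0 := by
    rintro rfl
    rw [pow_zero] at h
    nlinarith
  obtain ⟨m, rfl⟩ := Nat.exists_eq_succ_of_ne_zero hl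
  rw [Nat.succ_eq_add_one] at h ⊢
  have hρ0 : 0 < ρ := by linarith
  have h1 : r ^ m ≤ ρ ^ m := pow_le_pow_left₀ (by linarith) hρ m
  have h2 : r ^ (m + 1) * (ρ + 2) ≤ ρ ^ (m + 1) * (r + 2) := by
    have e1 : r ^ (m + 1) * (ρ + 2) = r ^ m * (r * (ρ + 2)) := by ring
    have e2 : ρ ^ (m + 1) * (r + 2) = ρ ^ m * (ρ * (r + 2)) := by ring
    rw [e1, e2]
    apply mul_le_mul h1 _ (by nlinarith) (by positivity)
    nlinarith
  have h3 : 11 * n * (ρ + 2) ≤ ρ ^ (m + 1) := by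
    have h4 : 11 * (r + 2) * n * (ρ + 2) ≤ ρ ^ (m + 1) * (r + 2) :=
      (mul_le_mul_of_nonneg_right h (by linarith)).trans h2
    have h5 : (11 * n * (ρ + 2)) * (r + 2) ≤ ρ ^ (m + 1) * (r + 2) := by linarith
    exact le_of_mul_le_mul_right h5 (by linarith)
  have hp : 0 < ρ ^ (m + 1) := pow_pos hρ0 _
  have he : Real.exp 1 < 2.7182818286 := Real.exp_one_lt_d9
  have h6 : Real.exp 1 * n * (ρ + 2) * 4 ≤ ρ ^ (m + 1) := by
    have h7 : 0 ≤ (n : ℝ) * (ρ + 2) := by positivity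
    nlinarith
  rw [inv_pow]
  have e3 : Real.exp 1 * n * (ρ ^ (m + 1))⁻¹ * (ρ + 2) =
      (Real.exp 1 * n * (ρ + 2)) / ρ ^ (m + 1) := by
    rw [div_eq_mul_inv]
    ring
  rw [e3, div_le_iff₀ hp]
  linarith

/-- PLAN. Suppose `r ≤ ‖z - 1‖`. If `V` is empty then `E` is empty and the flow polynomial is `1`. Otherwise
`z ≠ 0`, `z ≠ 1`, and by `ZZ_eq` and `ZZ_newton` it is enough that `Q = ∑ k, bc z k * sj k ζ ≠ 0` for `ζ = -1 / (z - 1)`.
With `y = ‖z‖`, `a = ‖ζ‖ = ‖z - 1‖⁻¹`: `‖Q - z‖ ≤ ∑ k ≠ 1, ac y k * sj k a = (∑ k, ac y k * sj k a) - y ≤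
hh (ac y) n (a ^ l) - y ≤ y / 2 < y`. -/
theorem main {V E : Type} [Fintype V] [Fintype E] (s t : E → V) (l : ℕ) (r : ℝ) (hr : 1 < r)
    (hd : ∀ S : Finset V, S.Nonempty → S ≠ univ → 2 * l ≤ bd s t S)
    (hn : 11 * (r + 2) * Fintype.card V ≤ r ^ l) (z : ℂ)
    (hz : ((fp s t).map (algebraMap ℝ ℂ)).eval z = 0) : ‖z - 1‖ < r := by
  by_contra hcon
  push Not at hcon
  rcases isEmpty_or_nonempty V with hV | hV
  · -- no vertices
    have hE : IsEmpty E := ⟨fun e => hV.elim (s e)⟩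
    have h1 : fp s t = 1 := by
      unfold fp
      have hu : (univ : Finset (Finset E)) = {∅} := by
        ext A
        simp only [mem_univ, mem_singleton, true_iff]
        exact Finset.eq_empty_of_isEmpty A
      rw [hu, sum_singleton, comps_empty]
      simp
    rw [h1] at hz
    simp at hz
  · have hcard : 1 ≤ Fintype.card V := Fintype.card_pos
    set ρ := ‖z - 1‖ with hρ
    have hρ0 : 0 < ρ := by linarith
    have hz1 : z ≠ 1 := by
      rintro rfl
      simp at hρ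
      linarith
    have hz0 : z ≠ 0 := by
      rintro rfl
      simp at hρ
      linarith
    have hy0 : 0 < ‖z‖ := norm_pos_iff.2 hz0
    have hy1 : ‖z‖ + 1 ≤ ρ + 2 := by
      have h1 : ‖z‖ ≤ ‖z - 1‖ + ‖(1 : ℂ)‖ := by
        calc ‖z‖ = ‖(z - 1) + 1‖ := by ring_nf
          _ ≤ _ := norm_add_le _ _
      rw [norm_one, ← hρ] at h1
      linarith
    set n := Fintype.card V with hndef
    set ζ : ℂ := -1 / (z - 1) with hζ
    have hζn : ‖ζ‖ = ρ⁻¹ := by
      rw [hζ, norm_div, norm_neg, norm_one, ← hρ, one_div]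
    have hZ : ZZ s t z = 0 := by rw [ZZ_eq, hz, mul_zero]
    rw [ZZ_newton s t z hz1] at hZ
    have hQ : ∑ k ∈ range (n + 1), bc z k * sj s t k ζ = 0 := by
      rcases mul_eq_zero.1 hZ with h | h
      · exact absurd h (pow_ne_zero _ (sub_ne_zero.2 hz1))
      · exact h
    have ha0 : 0 < ‖ζ‖ := by rw [hζn]; positivity
    have ha1 : ‖ζ‖ ≤ 1 := by
      rw [hζn]
      exact inv_le_one_of_one_le₀ (by linarith)
    have hmain := main_ineq (ac ‖z‖) (ac_nonneg ‖z‖ (norm_nonneg _)) l n hcard V E _ _ s t rfl hd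
      ‖ζ‖ ha0 ha1
    have hhle := hh_le ‖z‖ (norm_nonneg _) n (‖ζ‖ ^ l) (by positivity) (by
      refine le_trans ?_ (numeric r ρ n l hcard hr hcon hn)
      rw [hζn]
      exact mul_le_mul_of_nonneg_left hy1 (by positivity))
    -- the terms `k ≠ 1`
    have h1mem : 1 ∈ range (n + 1) := mem_range.2 (by omega)
    have hQ2 : z = - ∑ k ∈ (range (n + 1)).erase 1, bc z k * sj s t k ζ := by
      rw [← Finset.add_sum_erase _ _ h1mem, bc_one, sj_one_colour, mul_one] at hQ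
      exact eq_neg_of_add_eq_zero_left hQ
    have hb : ‖z‖ ≤ ∑ k ∈ (range (n + 1)).erase 1, ac ‖z‖ k * sj s t k ‖ζ‖ := by
      calc ‖z‖ = ‖- ∑ k ∈ (range (n + 1)).erase 1, bc z k * sj s t k ζ‖ := by rw [← hQ2]
        _ = ‖∑ k ∈ (range (n + 1)).erase 1, bc z k * sj s t k ζ‖ := norm_neg _
        _ ≤ ∑ k ∈ (range (n + 1)).erase 1, ‖bc z k * sj s t k ζ‖ := norm_sum_le _ _
        _ ≤ _ := by
          apply Finset.sum_le_sum
          intro k _
          rw [norm_mul]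
          exact mul_le_mul (bc_norm z k) (sj_norm s t k ζ) (norm_nonneg _)
            (ac_nonneg _ (norm_nonneg _) k)
    rw [← Finset.add_sum_erase _ _ h1mem, ac_one, sj_one_colour, mul_one] at hmain
    linarith

end Pool.Agent.LibLC4
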